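import Mathlib

set_option autoImplicit false

namespace Pool.Agent.H280Z.Hopf

variable {S : Type} [Semigroup S]

/-- the set `x T¹` -/
def RS (T : Subsemigroup S) (x : S) : Set S := insert x ((fun t => x * t) '' (T : Set S))

/-- the set `T¹ x` -/
def LS (T : Subsemigroup S) (x : S) : Set S := insert x ((fun t => t * x) '' (T : Set S))

/-- the relative `H`-class -/
def HC (T : Subsemigroup S) (x : S) : Set S := {y : S | RS T x = RS T y ∧ LS T x = LS T y}

theorem mem_HC_self (T : Subsemigroup S) (x : S) : x ∈ HC T x := ⟨rfl, rfl⟩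

theorem HC_eq {T : Subsemigroup S} {x y : S} (h : y ∈ HC T x) : HC T x = HC T y := by
  ext z
  simp only [HC, Set.mem_ofPred_eq, h.1, h.2]

theorem HC_symm {T : Subsemigroup S} {x y : S} (h : y ∈ HC T x) : x ∈ HC T y := ⟨h.1.symm, h.2.symm⟩

theorem R_of {T : Subsemigroup S} {x y : S} (h : RS T x = RS T y) : y = x ∨ ∃ t ∈ T, y = x * t := by
  have : y ∈ RS T x := h ▸ Set.mem_insert _ _
  rcases this with h1 | ⟨t, ht, h1⟩
  · exact Or.inl h1
  · exact Or.inr ⟨t, ht, h1.symm⟩

theorem L_of {T : Subsemigroup S} {x y : S} (h : LS T x = LS T y) : y = x ∨ ∃ t ∈ T, y = t * x := by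
  have : y ∈ LS T x := h ▸ Set.mem_insert _ _
  rcases this with h1 | ⟨t, ht, h1⟩
  · exact Or.inl h1
  · exact Or.inr ⟨t, ht, h1.symm⟩

theorem RS_sub {T : Subsemigroup S} {x y : S} (h : y = x ∨ ∃ t ∈ T, y = x * t) :
    RS T y ⊆ RS T x := by
  rcases h with rfl | ⟨t, ht, rfl⟩
  · exact subset_rfl
  · rintro z (rfl | ⟨u, hu, rfl⟩)
    · exact Or.inr ⟨t, ht, rfl⟩
    · exact Or.inr ⟨t * u, T.mul_mem ht hu, (mul_assoc _ _ _).symm⟩

theorem LS_sub {T : Subsemigroup S} {x y : S} (h : y = x ∨ ∃ t ∈ T, y = t * x) :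
    LS T y ⊆ LS T x := by
  rcases h with rfl | ⟨t, ht, rfl⟩
  · exact subset_rfl
  · rintro z (rfl | ⟨u, hu, rfl⟩)
    · exact Or.inr ⟨t, ht, rfl⟩
    · exact Or.inr ⟨u * t, T.mul_mem hu ht, mul_assoc _ _ _⟩

theorem RS_eq {T : Subsemigroup S} {x y : S} (h : y = x ∨ ∃ t ∈ T, y = x * t)
    (h' : x = y ∨ ∃ t ∈ T, x = y * t) : RS T x = RS T y :=
  Set.Subset.antisymm (RS_sub h') (RS_sub h)

theorem LS_eq {T : Subsemigroup S} {x y : S} (h : y = x ∨ ∃ t ∈ T, y = t * x)
    (h' : x = y ∨ ∃ t ∈ T, x = t * y) : LS T x = LS T y :=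
  Set.Subset.antisymm (LS_sub h') (LS_sub h)

theorem not_mem_of_HC {T : Subsemigroup S} {x y : S} (hx : x ∉ T) (h : y ∈ HC T x) : y ∉ T := by
  intro hy
  rcases R_of h.1.symm with h1 | ⟨t, ht, h1⟩
  · exact hx (h1 ▸ hy)
  · exact hx (h1 ▸ T.mul_mem hy ht)

/-- right multiplication preserves relative `L`-classes -/
theorem LS_mul {T : Subsemigroup S} {x y : S} (h : LS T x = LS T y) (s : S) :
    LS T (x * s) = LS T (y * s) := by
  apply LS_eq
  · rcases L_of h with rfl | ⟨t, ht, rfl⟩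
    · exact Or.inl rfl
    · exact Or.inr ⟨t, ht, mul_assoc _ _ _⟩
  · rcases L_of h.symm with rfl | ⟨t, ht, rfl⟩
    · exact Or.inl rfl
    · exact Or.inr ⟨t, ht, mul_assoc _ _ _⟩

/-- Green's lemma: if `x t` is in the class of `x`, then `t` stabilizes the class -/
theorem green_maps {T : Subsemigroup S} {x t : S} (ht : t ∈ T) (h : x * t ∈ HC T x) {y : S}
    (hy : y ∈ HC T x) : y * t ∈ HC T x := by
  refine ⟨?_, h.2.trans (LS_mul hy.2 t)⟩
  rw [hy.1]
  apply RS_eq (Or.inr ⟨t, ht, rfl⟩)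
  rcases R_of h.1.symm with h1 | ⟨u, hu, h1⟩
  · left
    rcases L_of hy.2 with rfl | ⟨v, -, rfl⟩
    · exact h1
    · rw [mul_assoc, ← h1]
  · right
    refine ⟨u, hu, ?_⟩
    rcases L_of hy.2 with rfl | ⟨v, -, rfl⟩
    · exact h1
    · rw [mul_assoc v, mul_assoc v, ← h1]

theorem green_fix {T : Subsemigroup S} {x : S} {a b : WithOne S}
    (h : (x : WithOne S) * a = x * b) {y : S} (hy : y ∈ HC T x) : (y : WithOne S) * a = y * b := by
  rcases L_of hy.2 with rfl | ⟨v, -, rfl⟩
  · exact h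
  · rw [WithOne.coe_mul, mul_assoc, mul_assoc, h]

theorem green_image {T : Subsemigroup S} {x t : S} (ht : t ∈ T) (h : x * t ∈ HC T x) :
    (fun y => y * t) '' HC T x = HC T x := by
  apply Set.Subset.antisymm
  · rintro _ ⟨y, hy, rfl⟩; exact green_maps ht h hy
  · intro y hy
    rcases R_of h.1.symm with h1 | ⟨u, hu, h1⟩
    · refine ⟨y, hy, ?_⟩
      have h2 : (x : WithOne S) * (t : WithOne S) = x * 1 := by
        rw [mul_one, ← WithOne.coe_mul, ← h1]
      have := green_fix h2 hy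
      rw [mul_one, ← WithOne.coe_mul] at this
      exact WithOne.coe_inj.1 this
    · have h2 : x * t * u ∈ HC T (x * t) := by rw [← h1]; exact HC_symm h
      have hy' : y ∈ HC T (x * t) := HC_eq h ▸ hy
      refine ⟨y * u, HC_eq h ▸ green_maps hu h2 hy', ?_⟩
      have h3 : ((x * t : S) : WithOne S) * ((u * t : S) : WithOne S) = (x * t : S) * 1 := by
        rw [mul_one, ← WithOne.coe_mul, ← mul_assoc, ← h1]
      have := green_fix h3 hy'
      rw [mul_one, ← WithOne.coe_mul] at this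
      show y * u * t = y
      rw [mul_assoc]; exact WithOne.coe_inj.1 this

/-! ### `T` is recognizable -/

/-- residual of `T` at `u` -/
def res (T : Subsemigroup S) (u : S) : Set (WithOne S) :=
  {y | ∃ t ∈ T, (u : WithOne S) * y = (t : WithOne S)}

def classes (T : Subsemigroup S) : Set (Set S) := {C : Set S | ∃ x : S, x ∉ T ∧ C = HC T x}

theorem res_eq_of_L {T : Subsemigroup S} {u v : S} (h : LS T u = LS T v) : res T u ⊆ res T v := by
  rintro y ⟨t, ht, hy⟩
  rcases L_of h with rfl | ⟨s, hs, rfl⟩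
  · exact ⟨t, ht, hy⟩
  · exact ⟨s * t, T.mul_mem hs ht, by rw [WithOne.coe_mul, mul_assoc, hy, WithOne.coe_mul]⟩

theorem finite_res {T : Subsemigroup S} (hfin : (classes T).Finite) :
    (Set.range (res T)).Finite := by
  have h1 : (res T '' {u | u ∉ T}).Finite := by
    let g : Set S → Set (WithOne S) := fun C => ⋃ u ∈ C, res T u
    refine (hfin.image g).subset ?_
    rintro _ ⟨u, hu, rfl⟩
    refine ⟨HC T u, ⟨u, hu, rfl⟩, ?_⟩
    apply Set.Subset.antisymm
    · exact Set.iUnion₂_subset fun v hv => res_eq_of_L hv.2.symm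
    · exact Set.subset_iUnion₂ (s := fun v (_ : v ∈ HC T u) => res T v) u (mem_HC_self T u)
  have h2 : (res T '' {u | u ∈ T}).Finite := by
    let g : Set (Set S) → Set (WithOne S) := fun A =>
      {y | y = 1 ∨ ∃ s : S, y = (s : WithOne S) ∧ (s ∈ T ∨ HC T s ∈ A)}
    refine ((hfin.finite_subsets).image g).subset ?_
    rintro _ ⟨u, hu, rfl⟩
    refine ⟨{C | ∃ s, s ∉ T ∧ C = HC T s ∧ u * s ∈ T}, fun C ⟨s, h1, h2, _⟩ => ⟨s, h1, h2⟩, ?_⟩
    ext y
    constructor
    · rintro (rfl | ⟨s, rfl, hs | ⟨s', -, h2, h3⟩⟩)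
      · exact ⟨u, hu, mul_one _⟩
      · exact ⟨u * s, T.mul_mem hu hs, rfl⟩
      · refine ⟨u * s, ?_, rfl⟩
        have : s ∈ HC T s' := h2 ▸ mem_HC_self T s
        rcases R_of this.1 with rfl | ⟨t, ht, rfl⟩
        · exact h3
        · rw [← mul_assoc]; exact T.mul_mem h3 ht
    · rintro ⟨t, ht, hy⟩
      induction y using WithOne.recOneCoe with
      | one => exact Or.inl rfl
      | coe s =>
        refine Or.inr ⟨s, rfl, ?_⟩
        by_cases hs : s ∈ T
        · exact Or.inl hs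
        · refine Or.inr ⟨s, hs, rfl, ?_⟩
          rw [← WithOne.coe_mul, WithOne.coe_inj] at hy
          exact hy ▸ ht
  refine (h1.union h2).subset ?_
  rintro _ ⟨u, rfl⟩
  by_cases hu : u ∈ T
  · exact Or.inr ⟨u, hu, rfl⟩
  · exact Or.inl ⟨u, hu, rfl⟩

/-- syntactic equivalence -/
def syn (T : Subsemigroup S) : Con S where
  r u v := res T u = res T v ∧ ∀ x, res T (x * u) = res T (x * v)
  iseqv := ⟨fun _ => ⟨rfl, fun _ => rfl⟩, fun h => ⟨h.1.symm, fun x => (h.2 x).symm⟩,
    fun h k => ⟨h.1.trans k.1, fun x => (h.2 x).trans (k.2 x)⟩⟩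
  mul' := by
    have key : ∀ {a b : S} (c : S), res T a = res T b → res T (a * c) = res T (b * c) := by
      intro a b c h
      ext y
      have h1 : ∀ z : S, y ∈ res T (z * c) ↔ (c : WithOne S) * y ∈ res T z := by
        intro z
        simp only [res, Set.mem_ofPred_eq, WithOne.coe_mul, mul_assoc]
      rw [h1, h1, h]
    intro a b c d h k
    refine ⟨(key c h.1).trans (k.2 b), fun x => ?_⟩
    rw [← mul_assoc, ← mul_assoc]
    exact (key c (h.2 x)).trans (k.2 (x * b))

theorem syn_mem {T : Subsemigroup S} {u v : S} (h : syn T u v) (hu : u ∈ T) : v ∈ T := by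
  have h1 : (1 : WithOne S) ∈ res T u := ⟨u, hu, mul_one _⟩
  rw [h.1] at h1
  obtain ⟨t, ht, h2⟩ := h1
  rw [mul_one, WithOne.coe_inj] at h2
  exact h2 ▸ ht

theorem finite_syn {T : Subsemigroup S} (hfin : (classes T).Finite) : Finite (syn T).Quotient := by
  have hR := finite_res hfin
  have : Finite (Set.range (res T)) := hR
  let rep : Set.range (res T) → S := fun A => A.2.choose
  have hrep : ∀ A : Set.range (res T), res T (rep A) = A := fun A => A.2.choose_spec
  let g : S → Set.range (res T) × (Set.range (res T) → Set.range (res T)) := fun u =>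
    (⟨res T u, u, rfl⟩, fun A => ⟨res T (rep A * u), _, rfl⟩)
  have hg : ∀ u v, g u = g v → syn T u v := by
    intro u v h
    refine ⟨congrArg (fun p => (p.1 : Set (WithOne S))) h, fun x => ?_⟩
    have h1 := congrArg (fun p => (p.2 ⟨res T x, x, rfl⟩ : Set (WithOne S))) h
    have h2 : ∀ w, res T (x * w) = res T (rep ⟨res T x, x, rfl⟩ * w) := by
      intro w
      ext y
      have h3 : ∀ z : S, y ∈ res T (z * w) ↔ (w : WithOne S) * y ∈ res T z := by
        intro z
        simp only [res, Set.mem_ofPred_eq, WithOne.coe_mul, mul_assoc]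
      rw [h3, h3, hrep]
    rw [h2, h2]; exact h1
  refine Finite.of_injective (fun q : (syn T).Quotient => g (Quotient.out q)) ?_
  intro p q h
  have := hg _ _ h
  rw [← Quotient.out_eq p, ← Quotient.out_eq q]
  exact Quotient.sound this

theorem exists_gen {T : Subsemigroup S} (hT : ∃ F : Finset S, Subsemigroup.closure (↑F : Set S) = T)
    (hfin : (classes T).Finite) : ∃ G : Set S, G.Finite ∧ Subsemigroup.closure G = ⊤ := by
  obtain ⟨F, hF⟩ := hT
  have : ∀ C : classes T, ∃ x, C.1 = HC T x := fun C => C.2.imp fun _ h => h.2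
  choose r hr using this
  have : Finite (classes T) := hfin
  refine ⟨F ∪ Set.range r, F.finite_toSet.union (Set.finite_range r), ?_⟩
  rw [eq_top_iff]
  intro x _
  have hsub : T ≤ Subsemigroup.closure (F ∪ Set.range r) :=
    hF.ge.trans (Subsemigroup.closure_mono Set.subset_union_left)
  by_cases hx : x ∈ T
  · exact hsub hx
  · let C : classes T := ⟨HC T x, x, hx, rfl⟩
    have h1 : x ∈ HC T (r C) := hr C ▸ mem_HC_self T x
    have h2 : r C ∈ Subsemigroup.closure (F ∪ Set.range r) :=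
      Subsemigroup.subset_closure (Or.inr ⟨C, rfl⟩)
    rcases R_of h1.1 with h3 | ⟨t, ht, h3⟩
    · exact h3 ▸ h2
    · exact h3 ▸ Subsemigroup.mul_mem _ h2 (hsub ht)

/-- iterates of a semigroup endomorphism -/
def it (f : S →ₙ* S) (n : ℕ) : S →ₙ* S where
  toFun := f^[n]
  map_mul' a b := by
    induction n with
    | zero => rfl
    | succ n ih => rw [Function.iterate_succ_apply', ih, map_mul, Function.iterate_succ_apply',
        Function.iterate_succ_apply']

theorem exists_pow {T : Subsemigroup S}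
    (hT : ∃ F : Finset S, Subsemigroup.closure (↑F : Set S) = T) (hfin : (classes T).Finite)
    (f : S →ₙ* S) (hf : Function.Surjective f) :
    ∃ n, 0 < n ∧ ∀ s, f^[n] s ∈ T ↔ s ∈ T := by
  obtain ⟨G, hG, hGc⟩ := exists_gen hT hfin
  have := finite_syn hfin
  have : Finite G := hG
  let a : ℕ → G → (syn T).Quotient := fun n g => ((f^[n] g : S) : (syn T).Quotient)
  obtain ⟨m, n, hmn, h⟩ := Finite.exists_ne_map_eq_of_infinite a
  wlog hlt : m < n generalizing m n
  · exact this n m hmn.symm h.symm (by omega)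
  have h1 : ∀ s, syn T (f^[m] s) (f^[n] s) := by
    intro s
    have hs : s ∈ Subsemigroup.closure G := hGc ▸ Subsemigroup.mem_top s
    induction hs using Subsemigroup.closure_induction with
    | mem x hx => exact (Con.eq _).1 (congrFun h ⟨x, hx⟩)
    | mul x y _ _ hx hy =>
      have e1 := (it f m).map_mul' x y
      have e2 := (it f n).map_mul' x y
      simp only [it] at e1 e2
      rw [e1, e2]
      exact (syn T).mul hx hy
  refine ⟨n - m, by omega, fun s => ?_⟩
  obtain ⟨s', rfl⟩ := hf.iterate m s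
  rw [← Function.iterate_add_apply, show n - m + m = n by omega]
  exact ⟨syn_mem ((syn T).symm (h1 s')), syn_mem (h1 s')⟩

theorem map_HC {T : Subsemigroup S} (f : S →ₙ* S) (hT : ∀ s, f s ∈ T ↔ s ∈ T) {x y : S}
    (h : y ∈ HC T x) : f y ∈ HC T (f x) := by
  have k1 : ∀ {x y : S}, RS T x = RS T y → f y = f x ∨ ∃ t ∈ T, f y = f x * t := by
    intro x y h
    rcases R_of h with rfl | ⟨t, ht, rfl⟩
    · exact Or.inl rfl
    · exact Or.inr ⟨f t, (hT t).2 ht, map_mul _ _ _⟩
  have k2 : ∀ {x y : S}, LS T x = LS T y → f y = f x ∨ ∃ t ∈ T, f y = t * f x := by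
    intro x y h
    rcases L_of h with rfl | ⟨t, ht, rfl⟩
    · exact Or.inl rfl
    · exact Or.inr ⟨f t, (hT t).2 ht, map_mul _ _ _⟩
  exact ⟨RS_eq (k1 h.1) (k1 h.1.symm), LS_eq (k2 h.2) (k2 h.2.symm)⟩

theorem exists_pow2 {T : Subsemigroup S} (hfin : (classes T).Finite)
    (f : S →ₙ* S) (hf : Function.Surjective f) (hT : ∀ s, f s ∈ T ↔ s ∈ T) :
    ∃ n, 0 < n ∧ ∀ s, s ∉ T → f^[n] s ∈ HC T s := by
  have : Finite (classes T) := hfin
  have hex : ∀ C : classes T, ∃ x, x ∉ T ∧ C.1 = HC T x := fun C => C.2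
  choose r hr0 hr using hex
  let c : ∀ s, s ∉ T → classes T := fun s hs => ⟨HC T s, s, hs, rfl⟩
  let g : classes T → classes T := fun C => c (f (r C)) (fun h => hr0 C ((hT _).1 h))
  have hg : ∀ s (hs : s ∉ T), g (c s hs) = c (f s) (fun h => hs ((hT _).1 h)) := by
    intro s hs
    apply Subtype.ext
    have h1 : s ∈ HC T (r (c s hs)) := hr (c s hs) ▸ mem_HC_self T s
    exact HC_eq (map_HC f hT h1)
  have hsurj : Function.Surjective g := by
    intro C
    obtain ⟨s, hs⟩ := hf (r C)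
    have hs' : s ∉ T := fun h => hr0 C (hs ▸ (hT s).2 h)
    refine ⟨c s hs', ?_⟩
    rw [hg s hs']
    apply Subtype.ext
    show HC T (f s) = C.1
    rw [hs, hr]
  let e : Equiv.Perm (classes T) := Equiv.ofBijective g (Finite.surjective_iff_bijective.1 hsurj)
  have hiter : ∀ n s (hs : s ∉ T), ∃ h : f^[n] s ∉ T, (e ^ n) (c s hs) = c _ h := by
    intro n s hs
    induction n with
    | zero => exact ⟨hs, rfl⟩
    | succ n ih =>
      obtain ⟨h1, h2⟩ := ih
      rw [Function.iterate_succ_apply', pow_succ', Equiv.Perm.mul_apply, h2]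
      exact ⟨fun h => h1 ((hT _).1 h), hg _ h1⟩
  refine ⟨orderOf e, orderOf_pos e, fun s hs => ?_⟩
  obtain ⟨h1, h2⟩ := hiter (orderOf e) s hs
  rw [pow_orderOf_eq_one] at h2
  have h3 : HC T s = HC T (f^[orderOf e] s) := congrArg Subtype.val h2
  rw [h3]; exact mem_HC_self T _

/-- the stabilizer monoid -/
def stab (T : Subsemigroup S) (H : Set S) : Submonoid (WithOne S) :=
  Submonoid.closure {u : WithOne S | u = 1 ∨ ∃ t ∈ T, u = (t : WithOne S) ∧ (fun h => h * t) '' H = H}

theorem mem_stab {T : Subsemigroup S} {H : Set S} {u : WithOne S} : u ∈ stab T H ↔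
    u = 1 ∨ ∃ t ∈ T, u = (t : WithOne S) ∧ (fun h => h * t) '' H = H := by
  refine ⟨fun h => ?_, fun h => Submonoid.subset_closure h⟩
  induction h using Submonoid.closure_induction with
  | mem x hx => exact hx
  | one => exact Or.inl rfl
  | mul x y _ _ hx hy =>
    rcases hx with rfl | ⟨t, ht, rfl, h1⟩
    · rwa [one_mul]
    · rcases hy with rfl | ⟨s, hs, rfl, h2⟩
      · rw [mul_one]; exact Or.inr ⟨t, ht, rfl, h1⟩
      · refine Or.inr ⟨t * s, T.mul_mem ht hs, rfl, ?_⟩
        conv_rhs => rw [← h2, ← h1, Set.image_image]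
        simp only [mul_assoc]

/-- the congruence `σ` -/
def sig (T : Subsemigroup S) (H : Set S) : Con (stab T H) where
  r a b := ∀ h ∈ H, (h : WithOne S) * (a : WithOne S) = (h : WithOne S) * (b : WithOne S)
  iseqv := ⟨fun _ _ _ => rfl, fun h x hx => (h x hx).symm, fun h k x hx => (h x hx).trans (k x hx)⟩
  mul' := by
    intro a b c d h k x hx
    rw [Submonoid.coe_mul, Submonoid.coe_mul, ← mul_assoc, ← mul_assoc, h x hx]
    rcases mem_stab.1 b.2 with h1 | ⟨t, -, h1, h2⟩
    · rw [h1, mul_one]; exact k x hx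
    · rw [h1, ← WithOne.coe_mul]
      exact k _ (h2 ▸ ⟨x, hx, rfl⟩)

theorem conGen_sig (T : Subsemigroup S) (H : Set S) :
    conGen (fun a b : stab T H => ∀ h ∈ H,
      (h : WithOne S) * (a : WithOne S) = (h : WithOne S) * (b : WithOne S)) = sig T H :=
  Con.conGen_of_con (sig T H)

theorem inj_class {T : Subsemigroup S} (f : S →ₙ* S) (hf : Function.Surjective f)
    (hT : ∀ s, f s ∈ T ↔ s ∈ T) (hC : ∀ s, s ∉ T → f s ∈ HC T s) {x : S} (hx : x ∉ T)
    (hop : ∀ g : (sig T (HC T x)).Quotient →* (sig T (HC T x)).Quotient,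
      Function.Surjective g → Function.Injective g)
    {y : S} (hy : y ∈ HC T x) (h : f x = f y) : x = y := by
  set H := HC T x with hH
  have hfx : f x ∈ H := hC x hx
  have hH' : HC T (f x) = H := (HC_eq hfx).symm
  have hst : ∀ t ∈ T, ((fun h => h * t) '' H = H ↔ (fun h => h * f t) '' H = H) := by
    intro t ht
    constructor
    · intro h1
      have h2 : x * t ∈ H := h1 ▸ ⟨x, mem_HC_self T x, rfl⟩
      have h3 : f x * f t ∈ HC T (f x) := by rw [← map_mul]; exact map_HC f hT h2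
      have := green_image ((hT t).2 ht) h3
      rwa [hH'] at this
    · intro h1
      have h2 : f (x * t) ∈ H := by rw [map_mul]; exact h1 ▸ ⟨f x, hfx, rfl⟩
      have h3 : x * t ∉ T := fun h => not_mem_of_HC hx h2 ((hT _).2 h)
      have h4 : x * t ∈ H := by
        have := HC_symm (hC _ h3)
        rwa [← HC_eq h2] at this
      exact green_image ht h4
  let F : WithOne S →* WithOne S := WithOne.mapMulHom f
  have hF : ∀ s : S, F s = (f s : S) := fun s => rfl
  have hmem : ∀ u ∈ stab T H, F u ∈ stab T H := by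
    intro u hu
    rcases mem_stab.1 hu with rfl | ⟨t, ht, rfl, h1⟩
    · rw [map_one]; exact one_mem _
    · exact mem_stab.2 (Or.inr ⟨f t, (hT t).2 ht, rfl, (hst t ht).1 h1⟩)
  let A : stab T H →* stab T H := (F.comp (stab T H).subtype).codRestrict _ (fun u => hmem u u.2)
  have hA : ∀ u : stab T H, (A u : WithOne S) = F u := fun u => rfl
  have hAs : Function.Surjective A := by
    intro u
    rcases mem_stab.1 u.2 with h1 | ⟨t, ht, h1, h2⟩
    · exact ⟨1, Subtype.ext (by rw [map_one, h1]; rfl)⟩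
    · obtain ⟨s, rfl⟩ := hf t
      have hs := (hT s).1 ht
      exact ⟨⟨s, mem_stab.2 (Or.inr ⟨s, hs, rfl, (hst s hs).2 h2⟩)⟩, Subtype.ext h1.symm⟩
  have hle : sig T H ≤ Con.ker ((sig T H).mk'.comp A) := by
    intro a b hab
    rw [Con.ker_rel, MonoidHom.comp_apply, MonoidHom.comp_apply]
    refine (Con.eq _).2 fun z hz => ?_
    have h1 := congrArg F (hab x (mem_HC_self T x))
    rw [map_mul, map_mul, hF] at h1
    rw [hA, hA]
    exact green_fix h1 (hH' ▸ hz)
  let g := (sig T H).lift _ hle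
  have hgs : Function.Surjective g :=
    Con.lift_surjective_of_surjective hle ((sig T H).mk'_surjective.comp hAs)
  have hgi := hop g hgs
  rcases R_of hy.1 with h1 | ⟨t, ht, h1⟩
  · exact h1.symm
  · have h2 : (t : WithOne S) ∈ stab T H :=
      mem_stab.2 (Or.inr ⟨t, ht, rfl, green_image ht (h1 ▸ hy)⟩)
    have h3 : g ((⟨t, h2⟩ : stab T H) : (sig T H).Quotient) = g ((1 : stab T H) : (sig T H).Quotient) := by
      rw [Con.lift_coe, Con.lift_coe, MonoidHom.comp_apply, MonoidHom.comp_apply]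
      refine (Con.eq _).2 fun z hz => ?_
      rw [hA, hA]
      refine green_fix (T := T) (x := f x) ?_ (hH' ▸ hz)
      show (f x : WithOne S) * (f t : S) = (f x : S) * F 1
      rw [map_one, mul_one, ← WithOne.coe_mul, ← map_mul, ← h1, h]
    have h4 := (Con.eq _).1 (hgi h3) x (mem_HC_self T x)
    have h5 : (x : WithOne S) * (t : WithOne S) = x * 1 := h4
    rw [mul_one, ← WithOne.coe_mul, WithOne.coe_inj] at h5
    rw [h1, h5]

theorem main (T : Subsemigroup S) (hT : ∃ F : Finset S, Subsemigroup.closure (↑F : Set S) = T)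
    (hfin : (classes T).Finite)
    (hop : ∀ f : T →ₙ* T, Function.Surjective f → Function.Injective f)
    (hopG : ∀ x, x ∉ T → ∀ g : (sig T (HC T x)).Quotient →* (sig T (HC T x)).Quotient,
      Function.Surjective g → Function.Injective g)
    (f : S →ₙ* S) (hf : Function.Surjective f) : Function.Injective f := by
  obtain ⟨n, hn, h1⟩ := exists_pow hT hfin f hf
  obtain ⟨m, hm, h2⟩ := exists_pow2 hfin (it f n) (hf.iterate n) h1
  let k := it (it f n) m
  have hks : Function.Surjective k := (hf.iterate n).iterate m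
  have hkT : ∀ s, k s ∈ T ↔ s ∈ T := by
    intro s
    show (it f n)^[m] s ∈ T ↔ s ∈ T
    clear h2 hm k hks
    induction m with
    | zero => rfl
    | succ m ih => rw [Function.iterate_succ_apply']; exact (h1 _).trans ih
  have hki : Function.Injective k := by
    intro x y hxy
    by_cases hx : x ∈ T
    · have hy : y ∈ T := (hkT y).1 (hxy ▸ (hkT x).2 hx)
      let k' : T →ₙ* T := ⟨fun t => ⟨k t, (hkT _).2 t.2⟩, fun a b => Subtype.ext (map_mul k _ _)⟩
      have hs : Function.Surjective k' := by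
        intro t
        obtain ⟨s, hs⟩ := hks t
        exact ⟨⟨s, (hkT s).1 (hs ▸ t.2)⟩, Subtype.ext hs⟩
      exact congrArg Subtype.val (hop k' hs (a₁ := ⟨x, hx⟩) (a₂ := ⟨y, hy⟩) (Subtype.ext hxy))
    · have hy : y ∉ T := fun h => hx ((hkT x).1 (hxy ▸ (hkT y).2 h))
      have h3 : y ∈ HC T x := by
        have a1 : k x ∈ HC T x := h2 x hx
        have a2 : k y ∈ HC T y := h2 y hy
        rw [HC_eq a1, hxy]; exact HC_symm a2
      exact inj_class k hks hkT h2 hx (hopG x hx) h3 hxy
  have e : (k : S → S) = f^[n * m] := (Function.iterate_mul f n m).symm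
  obtain ⟨j, hj⟩ : ∃ j, n * m = j + 1 := ⟨n * m - 1, by have := Nat.mul_pos hn hm; omega⟩
  rw [e, hj, Function.iterate_succ] at hki
  exact hki.of_comp

end Pool.Agent.H280Z.Hopf
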